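import Mathlib
import Pool.Agent.Helper292.ForceCH

open MeasureTheory Filter Topology
open scoped ENNReal

namespace Pool.Agent.Results.MP_dd3545_lc.ForcedSeparation

/-! ### Definitions -/

/-- The coin with probability `p` of `true` and `1 - p` of `false`. -/
noncomputable def coin (p : ℝ≥0∞) : Measure Bool :=
  p • Measure.dirac true + (1 - p) • Measure.dirac false

/-- Lebesgue measure on the Cantor space: the product of the fair coin measures. -/
noncomputable def lebesgue : Measure (ℕ → Bool) :=
  Measure.infinitePi (fun _ : ℕ => coin (1 / 2))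

/-- The node `x|n` is a branching point of `P`: both one-bit extensions of `x|n` are initial
segments of points of `P`. -/
def Branching (P : Set (ℕ → Bool)) (x : ℕ → Bool) (n : ℕ) : Prop :=
  ∀ b : Bool, ∃ y ∈ P, (∀ i < n, y i = x i) ∧ y n = b

/-- `h` is the canonical homeomorphism from the Cantor space onto `P`: for every `y` and `k`,
the point `h y` leaves its `k`-th branching point of `P` in direction `y k`. -/
def IsCanonical (P : Set (ℕ → Bool)) (h : (ℕ → Bool) ≃ₜ P) : Prop :=
  ∀ (y : ℕ → Bool) (k : ℕ), (h y : ℕ → Bool) (Nat.nth (Branching P (h y)) k) = y k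

/-- `A` is perfectly null: for every (nonempty) perfect `P`, the set `A ∩ P` is null for the
canonical measure of `P`, that is, its preimage under the canonical homeomorphism of `P` is
Lebesgue null. -/
def PerfectlyNull (A : Set (ℕ → Bool)) : Prop :=
  ∀ P : Set (ℕ → Bool), Perfect P → P.Nonempty →
    ∃ h : (ℕ → Bool) ≃ₜ P, IsCanonical P h ∧ lebesgue {y | (h y : ℕ → Bool) ∈ A} = 0

/-- `A` is universally null: it is null for every finite diffused Borel measure. -/
def UniversallyNull (A : Set (ℕ → Bool)) : Prop :=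
  ∀ μ : Measure (ℕ → Bool), IsFiniteMeasure μ → (∀ x, μ {x} = 0) → μ A = 0

/-! ### Bernoulli measures -/

lemma coin_prob {p : ℝ≥0∞} (hp : p ≤ 1) : IsProbabilityMeasure (coin p) := by
  constructor
  simp [coin, add_tsub_cancel_of_le hp]

lemma coin_true (p : ℝ≥0∞) : coin p {true} = p := by
  simp [coin]

lemma coin_false (p : ℝ≥0∞) : coin p {false} = 1 - p := by
  simp [coin]

/-- the product measure -/
noncomputable def bern (p : ℝ≥0∞) : Measure (ℕ → Bool) :=
  Measure.infinitePi (fun _ : ℕ => coin p)

lemma bern_prob {p : ℝ≥0∞} (hp : p ≤ 1) : IsProbabilityMeasure (bern p) := by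
  have := coin_prob hp
  unfold bern
  infer_instance

/-- measure of a cylinder-/
lemma bern_cyl {p : ℝ≥0∞} (hp : p ≤ 1) (x : ℕ → Bool) (n : ℕ) :
    bern p {y | ∀ i < n, y i = x i} = ∏ i ∈ Finset.range n, coin p {x i} := by
  have := coin_prob hp
  have h : {y : ℕ → Bool | ∀ i < n, y i = x i} =
      Set.pi (Finset.range n : Set ℕ) (fun i => {x i}) := by
    ext y; simp [Set.mem_pi]
  rw [h, bern, Measure.infinitePi_pi]
  intro i _; exact MeasurableSet.singleton _

/-- prepend a bit -/
def pre (b : Bool) (y : ℕ → Bool) : ℕ → Bool := fun n => Nat.casesOn n b y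

@[simp] lemma pre_zero (b : Bool) (y : ℕ → Bool) : pre b y 0 = b := rfl
@[simp] lemma pre_succ (b : Bool) (y : ℕ → Bool) (n : ℕ) : pre b y (n + 1) = y n := rfl

lemma bern_pre_meas {p : ℝ≥0∞} (hp : p ≤ 1) (hp0 : p ≠ 0) (hp1 : p ≠ 1) (b : Bool) {T : Set (ℕ → Bool)}
    (hT : MeasurableSet T) :
    bern p {x | x 0 = b ∧ (fun n => x (n + 1)) ∈ T} = coin p {b} * bern p T := by
  have := coin_prob hp
  have := bern_prob hp
  have hc0 : coin p {b} ≠ 0 := by
    cases b
    · rw [coin_false]
      exact (tsub_pos_of_lt (lt_of_le_of_ne hp hp1)).ne'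
    · rw [coin_true]; exact hp0
  have hct : coin p {b} ≠ ⊤ := measure_ne_top _ _
  have hmeas : MeasurableSet {x : ℕ → Bool | x 0 = b} := by
    change MeasurableSet ((fun x : ℕ → Bool => x 0) ⁻¹' {b})
    exact (measurable_pi_apply (0 : ℕ)) (MeasurableSet.singleton b)
  have hshift : Measurable (fun (x : ℕ → Bool) (n : ℕ) => x (n + 1)) :=
    measurable_pi_lambda _ (fun n => measurable_pi_apply (n + 1))
  have key : (coin p {b})⁻¹ • ((bern p).restrict {x | x 0 = b}).map
      (fun (x : ℕ → Bool) (n : ℕ) => x (n + 1)) = bern p := by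
    apply Measure.eq_infinitePi
    intro s t ht
    rw [Measure.smul_apply, Measure.map_apply hshift (MeasurableSet.pi s.countable_toSet (fun i _ => ht i)),
      Measure.restrict_apply (hshift (MeasurableSet.pi s.countable_toSet (fun i _ => ht i)))]
    have h1 : (fun (x : ℕ → Bool) (n : ℕ) => x (n + 1)) ⁻¹' (Set.pi (s : Set ℕ) t) ∩ {x | x 0 = b}
        = Set.pi ((insert 0 (s.map ⟨Nat.succ, Nat.succ_injective⟩) : Finset ℕ) : Set ℕ)
          (fun i => (Nat.casesOn i ({b} : Set Bool) t : Set Bool)) := by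
      ext x
      simp only [Set.mem_inter_iff, Set.mem_preimage, Set.mem_pi, Finset.mem_coe, Set.mem_ofPred_eq,
        Finset.mem_insert, Finset.mem_map, Function.Embedding.coeFn_mk]
      constructor
      · rintro ⟨h1, h2⟩ i (rfl | ⟨a, ha, rfl⟩)
        · simpa using h2
        · exact h1 a ha
      · intro h
        refine ⟨fun i hi => ?_, ?_⟩
        · exact h (i + 1) (Or.inr ⟨i, hi, rfl⟩)
        · simpa using h 0 (Or.inl rfl)
    rw [h1, bern, Measure.infinitePi_pi, Finset.prod_insert, Finset.prod_map]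
    · simp only [Function.Embedding.coeFn_mk, smul_eq_mul]
      change (coin p {b})⁻¹ * (coin p {b} * ∏ x ∈ s, (coin p) (t x)) = _
      rw [← mul_assoc, ENNReal.inv_mul_cancel hc0 hct, one_mul]
    · simp
    · intro i _
      cases i
      · exact MeasurableSet.singleton _
      · exact ht _
  have h2 : coin p {b} * ((coin p {b})⁻¹ • ((bern p).restrict {x | x 0 = b}).map
      (fun (x : ℕ → Bool) (n : ℕ) => x (n + 1))) T = coin p {b} * bern p T := by rw [key]
  rw [Measure.smul_apply, smul_eq_mul, ← mul_assoc, ENNReal.mul_inv_cancel hc0 hct, one_mul,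
    Measure.map_apply hshift hT, Measure.restrict_apply (hshift hT)] at h2
  rw [← h2]
  congr 1
  ext x
  simp [and_comm]

/-- for arbitrary sets, the measure of `b :: T` is at most `coin b * μ T` -/
lemma bern_pre_le {p : ℝ≥0∞} (hp : p ≤ 1) (hp0 : p ≠ 0) (hp1 : p ≠ 1) (b : Bool) (T : Set (ℕ → Bool)) :
    bern p {x | x 0 = b ∧ (fun n => x (n + 1)) ∈ T} ≤ coin p {b} * bern p T := by
  calc bern p {x | x 0 = b ∧ (fun n => x (n + 1)) ∈ T}
      ≤ bern p {x | x 0 = b ∧ (fun n => x (n + 1)) ∈ toMeasurable (bern p) T} := by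
        apply measure_mono
        rintro x ⟨h1, h2⟩
        exact ⟨h1, subset_toMeasurable _ _ h2⟩
    _ = coin p {b} * bern p T := by
        rw [bern_pre_meas hp hp0 hp1 b (measurableSet_toMeasurable _ _), measure_toMeasurable]


/-- the section of P after first bit b -/
def sec (P : Set (ℕ → Bool)) (b : Bool) : Set (ℕ → Bool) := {y | pre b y ∈ P}

lemma pre_eta (x : ℕ → Bool) : pre (x 0) (fun n => x (n + 1)) = x := by
  funext n; cases n <;> rfl

lemma branching_succ (P : Set (ℕ → Bool)) (x : ℕ → Bool) (n : ℕ) :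
    Branching P x (n + 1) ↔ Branching (sec P (x 0)) (fun n => x (n + 1)) n := by
  constructor
  · intro h b
    obtain ⟨y, hy, h1, h2⟩ := h b
    refine ⟨fun n => y (n + 1), ?_, fun i hi => h1 (i + 1) (by omega), h2⟩
    have h0 : y 0 = x 0 := h1 0 (by omega)
    change pre (x 0) (fun n => y (n + 1)) ∈ P
    rw [← h0, pre_eta]
    exact hy
  · intro h b
    obtain ⟨y, hy, h1, h2⟩ := h b
    refine ⟨pre (x 0) y, hy, fun i hi => ?_, h2⟩
    cases i with
    | zero => rfl
    | succ i => exact h1 i (by omega)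

/-- number of non-branching levels below N -/
noncomputable def nb (P : Set (ℕ → Bool)) (x : ℕ → Bool) (N : ℕ) : ℕ :=
  @Nat.count (fun n => ¬ Branching P x n) (Classical.decPred _) N

lemma count_eq {p q : ℕ → Prop} (h : p = q) (hp : DecidablePred p) (hq : DecidablePred q) (N : ℕ) :
    @Nat.count p hp N = @Nat.count q hq N := by
  subst h
  congr

lemma nb_succ_of (P : Set (ℕ → Bool)) (x : ℕ → Bool) (N : ℕ) (h : Branching P x 0) :
    nb P x (N + 1) = nb (sec P (x 0)) (fun n => x (n + 1)) N := by
  unfold nb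
  rw [@Nat.count_succ' _ (Classical.decPred _)]
  simp only [h, not_true, if_false, add_zero]
  exact count_eq (by funext k; rw [branching_succ]) _ _ N

lemma nb_succ_not (P : Set (ℕ → Bool)) (x : ℕ → Bool) (N : ℕ) (h : ¬ Branching P x 0) :
    nb P x (N + 1) = nb (sec P (x 0)) (fun n => x (n + 1)) N + 1 := by
  unfold nb
  rw [@Nat.count_succ' _ (Classical.decPred _)]
  simp only [h, not_false_eq_true, if_true]
  rw [count_eq (by funext k; rw [branching_succ]) _ _ N]

lemma third_eq : (1 / 3 : ℝ≥0∞) = ENNReal.ofReal (1 / 3) := by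
  rw [ENNReal.ofReal_div_of_pos (by norm_num)]; simp

lemma twothird_eq : (2 / 3 : ℝ≥0∞) = ENNReal.ofReal (2 / 3) := by
  rw [ENNReal.ofReal_div_of_pos (by norm_num)]; simp

lemma one_sub_third : 1 - (1 / 3 : ℝ≥0∞) = 2 / 3 := by
  rw [third_eq, twothird_eq, ← ENNReal.ofReal_one, ← ENNReal.ofReal_sub _ (by norm_num)]
  norm_num

lemma coin_le {b : Bool} : coin (1 / 3) {b} ≤ 2 / 3 := by
  cases b
  · rw [coin_false, one_sub_third]
  · rw [coin_true, third_eq, twothird_eq]
    exact ENNReal.ofReal_le_ofReal (by norm_num)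

lemma third_le : (1 / 3 : ℝ≥0∞) ≤ 1 := by
  rw [third_eq, ← ENNReal.ofReal_one]
  exact ENNReal.ofReal_le_ofReal (by norm_num)

lemma third_ne0 : (1 / 3 : ℝ≥0∞) ≠ 0 := by simp

lemma third_ne1 : (1 / 3 : ℝ≥0∞) ≠ 1 := by
  rw [third_eq, ← ENNReal.ofReal_one]
  intro h
  rw [ENNReal.ofReal_eq_ofReal_iff (by norm_num) (by norm_num)] at h
  norm_num at h

lemma nb_measure (N : ℕ) : ∀ (k : ℕ) (P : Set (ℕ → Bool)),
    bern (1 / 3) {x | x ∈ P ∧ k ≤ nb P x N} ≤ (2 / 3) ^ k := by
  have hprob := bern_prob third_le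
  induction N with
  | zero =>
    intro k P
    cases k with
    | zero => exact prob_le_one.trans (by simp)
    | succ k => simp [nb]
  | succ N ih =>
    intro k P
    by_cases hbr : ∀ b : Bool, ∃ y ∈ P, y 0 = b
    · -- level 0 is branching
      have hB : ∀ x, Branching P x 0 := by
        intro x b
        obtain ⟨y, hy, h⟩ := hbr b
        exact ⟨y, hy, by simp, h⟩
      have hsub : {x | x ∈ P ∧ k ≤ nb P x (N + 1)} ⊆
          {x | x 0 = true ∧ (fun n => x (n + 1)) ∈ {x | x ∈ sec P true ∧ k ≤ nb (sec P true) x N}} ∪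
          {x | x 0 = false ∧ (fun n => x (n + 1)) ∈ {x | x ∈ sec P false ∧ k ≤ nb (sec P false) x N}} := by
        rintro x ⟨hx, hk⟩
        rw [nb_succ_of _ _ _ (hB x)] at hk
        cases h0 : x 0
        · right
          refine ⟨h0, ?_, ?_⟩
          · change pre false _ ∈ P
            rw [← h0, pre_eta]; exact hx
          · rw [h0] at hk; exact hk
        · left
          refine ⟨h0, ?_, ?_⟩
          · change pre true _ ∈ P
            rw [← h0, pre_eta]; exact hx
          · rw [h0] at hk; exact hk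
      refine (measure_mono hsub).trans ((measure_union_le _ _).trans ?_)
      refine (add_le_add (bern_pre_le third_le third_ne0 third_ne1 true _)
        (bern_pre_le third_le third_ne0 third_ne1 false _)).trans ?_
      refine (add_le_add (mul_le_mul_right (ih k _) _) (mul_le_mul_right (ih k _) _)).trans ?_
      rw [← add_mul, coin_true, coin_false, add_tsub_cancel_of_le third_le, one_mul]
    · -- level 0 is not branching
      push Not at hbr
      obtain ⟨b, hb⟩ := hbr
      have hx0 : ∀ x ∈ P, x 0 = !b := by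
        intro x hx
        have := hb x hx
        cases b <;> cases h : x 0 <;> simp_all
      have hB : ∀ x, ¬ Branching P x 0 := by
        intro x h
        obtain ⟨y, hy, -, h2⟩ := h b
        exact hb y hy h2
      cases k with
      | zero => exact prob_le_one.trans (by simp)
      | succ k =>
        have hsub : {x | x ∈ P ∧ k + 1 ≤ nb P x (N + 1)} ⊆
            {x | x 0 = (!b) ∧ (fun n => x (n + 1)) ∈
              {x | x ∈ sec P (!b) ∧ k ≤ nb (sec P (!b)) x N}} := by
          rintro x ⟨hx, hk⟩
          rw [nb_succ_not _ _ _ (hB x)] at hk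
          have h0 := hx0 x hx
          refine ⟨h0, ?_, ?_⟩
          · change pre (!b) _ ∈ P
            rw [← h0, pre_eta]; exact hx
          · rw [h0] at hk; omega
        refine (measure_mono hsub).trans ?_
        refine (bern_pre_le third_le third_ne0 third_ne1 (!b) _).trans ?_
        rw [pow_succ']
        exact mul_le_mul' coin_le (ih k _)


/-- points of P with infinitely many non-branching levels are null -/
lemma null_inf (P : Set (ℕ → Bool)) :
    bern (1 / 3) {x | x ∈ P ∧ ∃ᶠ n in atTop, ¬ Branching P x n} = 0 := by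
  have hprob := bern_prob third_le
  have hk : ∀ k : ℕ, bern (1 / 3) {x | x ∈ P ∧ ∃ᶠ n in atTop, ¬ Branching P x n} ≤ (2 / 3) ^ k := by
    intro k
    have hsub : {x | x ∈ P ∧ ∃ᶠ n in atTop, ¬ Branching P x n} ⊆
        ⋃ N : ℕ, {x | x ∈ P ∧ k ≤ nb P x N} := by
      rintro x ⟨hx, hf⟩
      simp only [Set.mem_iUnion]
      have hinf : (Set.ofPred (fun n => ¬ Branching P x n)).Infinite := Nat.frequently_atTop_iff_infinite.mp hf
      refine ⟨Nat.nth (fun n => ¬ Branching P x n) k, hx, ?_⟩
      unfold nb
      exact (@Nat.count_nth_of_infinite (fun n => ¬ Branching P x n) (Classical.decPred _) hinf k).ge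
    refine (measure_mono hsub).trans ?_
    rw [Monotone.measure_iUnion]
    · exact iSup_le (fun N => nb_measure N k P)
    · intro M N hMN x hx
      refine ⟨hx.1, hx.2.trans ?_⟩
      exact @Nat.count_monotone _ (Classical.decPred _) M N hMN
  have hlim : Tendsto (fun k : ℕ => (2 / 3 : ℝ≥0∞) ^ k) atTop (𝓝 0) := by
    apply ENNReal.tendsto_pow_atTop_nhds_zero_of_lt_one
    rw [twothird_eq, ← ENNReal.ofReal_one]
    exact (ENNReal.ofReal_lt_ofReal_iff (by norm_num)).mpr (by norm_num)
  exact le_antisymm (ge_of_tendsto' hlim hk) zero_le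

/-- frequency -/
def Freq (x : ℕ → Bool) (L : ℝ) : Prop :=
  Tendsto (fun n : ℕ => (n : ℝ)⁻¹ * ∑ i ∈ Finset.range n, (if x i then (1 : ℝ) else 0)) atTop (𝓝 L)

/-- SLLN -/
lemma ae_freq {p : ℝ≥0∞} (hp : p ≤ 1) : ∀ᵐ x ∂(bern p), Freq x p.toReal := by
  have hcoin := coin_prob hp
  have hprob := bern_prob hp
  let X : ℕ → (ℕ → Bool) → ℝ := fun i x => if x i then (1 : ℝ) else 0
  have hf : Measurable (fun b : Bool => if b then (1 : ℝ) else 0) := measurable_of_finite _
  have hX : ∀ i, Measurable (X i) := fun i => hf.comp (measurable_pi_apply i)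
  have hind : ProbabilityTheory.iIndepFun X (bern p) :=
    ProbabilityTheory.iIndepFun_infinitePi (P := fun _ : ℕ => coin p)
      (X := fun _ b => if b then (1 : ℝ) else 0) (fun _ => hf)
  have hid : ∀ i, ProbabilityTheory.IdentDistrib (X i) (X 0) (bern p) (bern p) := by
    intro i
    refine ⟨(hX i).aemeasurable, (hX 0).aemeasurable, ?_⟩
    have e : ∀ j, (bern p).map (X j) = (coin p).map (fun b : Bool => if b then (1 : ℝ) else 0) := by
      intro j
      have h1 : (bern p).map (fun x => x j) = coin p := Measure.infinitePi_map_eval (fun _ : ℕ => coin p) j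
      rw [← h1, Measure.map_map hf (measurable_pi_apply j)]
      rfl
    rw [e i, e 0]
  have hint : Integrable (X 0) (bern p) := by
    apply Integrable.of_bound (hX 0).aestronglyMeasurable 1
    refine Filter.Eventually.of_forall (fun x => ?_)
    simp only [X]
    split_ifs <;> simp
  have h := ProbabilityTheory.strong_law_ae X hint (fun i j hij => hind.indepFun hij) hid
  have hE : ∫ x, X 0 x ∂(bern p) = p.toReal := by
    have h1 : (bern p).map (fun x => x 0) = coin p := Measure.infinitePi_map_eval (fun _ : ℕ => coin p) 0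
    have h2 : ∫ x, X 0 x ∂(bern p) = ∫ b, (if b then (1 : ℝ) else 0) ∂(coin p) := by
      rw [← h1, integral_map (measurable_pi_apply 0).aemeasurable hf.aestronglyMeasurable]
    rw [h2]
    have h3 : (fun b : Bool => if b then (1 : ℝ) else 0) = Set.indicator {true} (fun _ => (1 : ℝ)) := by
      funext b; cases b <;> simp
    rw [h3, integral_indicator (MeasurableSet.singleton _)]
    simp [Measure.real, coin_true]
  rw [hE] at h
  filter_upwards [h] with x hx
  simpa [Freq, X, smul_eq_mul] using hx


lemma Freq.shift {x y : ℕ → Bool} {a b : ℕ} (h : ∀ i, y (a + i) = x (b + i)) {L : ℝ}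
    (hx : Freq x L) : Freq y L := by
  unfold Freq at hx ⊢
  set S : (ℕ → Bool) → ℕ → ℝ := fun z n => ∑ i ∈ Finset.range n, (if z i then (1 : ℝ) else 0) with hS
  have hsum : ∀ n, S y (n + a) = S x (n + b) + (S y a - S x b) := by
    intro n
    have h1 : S y (n + a) = S y a + ∑ i ∈ Finset.range n, (if y (a + i) then (1 : ℝ) else 0) := by
      rw [hS, add_comm n a]
      simp only [Finset.sum_range_add]
    have h2 : S x (n + b) = S x b + ∑ i ∈ Finset.range n, (if x (b + i) then (1 : ℝ) else 0) := by
      rw [hS, add_comm n b]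
      simp only [Finset.sum_range_add]
    rw [h1, h2]
    simp only [h]
    ring
  have hx' := (tendsto_add_atTop_iff_nat b).mpr hx
  rw [← tendsto_add_atTop_iff_nat a]
  have e1 : Tendsto (fun n : ℕ => ((n + a : ℕ) : ℝ)⁻¹ * ((n + b : ℕ) : ℝ)) atTop (𝓝 1) := by
    have e2 : Tendsto (fun n : ℕ => 1 + ((b : ℝ) - a) * ((n + a : ℕ) : ℝ)⁻¹) atTop (𝓝 (1 + ((b : ℝ) - a) * 0)) := by
      apply Tendsto.add tendsto_const_nhds
      apply Tendsto.mul tendsto_const_nhds
      exact (tendsto_add_atTop_iff_nat a).mpr tendsto_inv_atTop_nhds_zero_nat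
    rw [mul_zero, add_zero] at e2
    refine e2.congr' ?_
    filter_upwards [eventually_gt_atTop 0] with n hn
    have hn' : ((n + a : ℕ) : ℝ) ≠ 0 := by positivity
    field_simp
    push_cast
    ring
  have e3 : Tendsto (fun n : ℕ => (((n + a : ℕ) : ℝ)⁻¹ * ((n + b : ℕ) : ℝ)) *
      (((n + b : ℕ) : ℝ)⁻¹ * S x (n + b)) + ((n + a : ℕ) : ℝ)⁻¹ * (S y a - S x b)) atTop
      (𝓝 (1 * L + 0 * (S y a - S x b))) := by
    apply Tendsto.add
    · exact e1.mul hx'
    · exact Tendsto.mul ((tendsto_add_atTop_iff_nat a).mpr tendsto_inv_atTop_nhds_zero_nat)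
        tendsto_const_nhds
  rw [one_mul, zero_mul, add_zero] at e3
  refine e3.congr' ?_
  filter_upwards [eventually_gt_atTop 0] with n hn
  have hn' : ((n + b : ℕ) : ℝ) ≠ 0 := by positivity
  change _ = ((n + a : ℕ) : ℝ)⁻¹ * S y (n + a)
  rw [hsum n]
  field_simp

/-- the turns at branching points -/
noncomputable def turns (P : Set (ℕ → Bool)) (x : ℕ → Bool) (k : ℕ) : Bool :=
  x (Nat.nth (Branching P x) k)

lemma turns_shift {P : Set (ℕ → Bool)} {x : ℕ → Bool} {K : ℕ} (hK : ∀ n, K ≤ n → Branching P x n) :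
    ∃ a, ∀ i, turns P x (a + i) = x (K + i) := by
  classical
  refine ⟨Nat.count (Branching P x) K, fun i => ?_⟩
  have h1 : Nat.count (Branching P x) (K + i) = Nat.count (Branching P x) K + i := by
    rw [Nat.count_add]
    congr 1
    rw [Nat.count_iff_forall.mpr]
    intro j _
    exact hK _ (by omega)
  unfold turns
  rw [← h1, Nat.nth_count (hK _ (by omega))]


lemma half_le : (1 / 2 : ℝ≥0∞) ≤ 1 := by
  rw [ENNReal.div_le_iff (by norm_num) (by norm_num)]; norm_num

lemma Freq.unique {x : ℕ → Bool} {L M : ℝ} (h1 : Freq x L) (h2 : Freq x M) : L = M :=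
  tendsto_nhds_unique h1 h2

lemma lebesgue_freq : lebesgue {y | Freq y (1 / 3)} = 0 := by
  have h := ae_freq (p := 1 / 2) half_le
  have h2 : ∀ᵐ x ∂lebesgue, ¬ Freq x (1 / 3) := by
    filter_upwards [h] with x hx h3
    have := Freq.unique hx h3
    norm_num at this
  simpa [ae_iff] using h2

lemma cyl_le {p q : ℝ≥0∞} (hp : p ≤ 1) (hq : ∀ b, coin p {b} ≤ q) (hq1 : q < 1) (x : ℕ → Bool) :
    bern p {x} = 0 := by
  have h : ∀ n : ℕ, bern p {x} ≤ q ^ n := by
    intro n
    calc bern p {x} ≤ bern p {y | ∀ i < n, y i = x i} := by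
          apply measure_mono
          rintro y rfl
          simp
      _ = ∏ i ∈ Finset.range n, coin p {x i} := bern_cyl hp x n
      _ ≤ ∏ i ∈ Finset.range n, q := Finset.prod_le_prod' (fun i _ => hq _)
      _ = q ^ n := by simp
  exact le_antisymm (ge_of_tendsto' (ENNReal.tendsto_pow_atTop_nhds_zero_of_lt_one hq1) h) zero_le

lemma third_atom (x : ℕ → Bool) : bern (1 / 3) {x} = 0 := by
  apply cyl_le third_le (q := 2 / 3) (fun b => coin_le)
  rw [twothird_eq, ← ENNReal.ofReal_one]
  exact (ENNReal.ofReal_lt_ofReal_iff (by norm_num)).mpr (by norm_num)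

lemma leb_atom (x : ℕ → Bool) : lebesgue {x} = 0 := by
  apply cyl_le (p := 1 / 2) half_le (q := 1 / 2)
  · intro b
    cases b
    · rw [coin_false]
      simp
    · rw [coin_true]
  · rw [ENNReal.div_lt_iff (by norm_num) (by norm_num)]; norm_num

/-- A set meeting every null set of the (1/3)-Bernoulli measure in a countable set is P-null
for every P. -/
lemma turns_null {A : Set (ℕ → Bool)}
    (hA : ∀ N, bern (1 / 3) N = 0 → (A ∩ N).Countable) (P : Set (ℕ → Bool)) :
    lebesgue (turns P '' (A ∩ P)) = 0 := by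
  set N1 : Set (ℕ → Bool) := {x | x ∈ P ∧ ∃ᶠ n in atTop, ¬ Branching P x n} with hN1
  set N2 : Set (ℕ → Bool) := {x | ¬ Freq x (1 / 3)} with hN2
  have h1 : (A ∩ N1).Countable := hA _ (null_inf P)
  have h2 : (A ∩ N2).Countable := by
    apply hA
    have h := ae_freq (p := 1 / 3) third_le
    rw [ae_iff] at h
    convert! h using 3
    simp
  have hsub : turns P '' (A ∩ P) ⊆ turns P '' (A ∩ N1) ∪ turns P '' (A ∩ N2) ∪ {y | Freq y (1 / 3)} := by
    rintro _ ⟨x, ⟨hxA, hxP⟩, rfl⟩
    by_cases c1 : x ∈ N1
    · exact Or.inl (Or.inl ⟨x, ⟨hxA, c1⟩, rfl⟩)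
    by_cases c2 : x ∈ N2
    · exact Or.inl (Or.inr ⟨x, ⟨hxA, c2⟩, rfl⟩)
    right
    have hev : ∀ᶠ n in atTop, Branching P x n := by
      by_contra hcon
      apply c1
      refine ⟨hxP, ?_⟩
      simpa [Filter.Frequently] using hcon
    obtain ⟨K, hK⟩ := eventually_atTop.mp hev
    obtain ⟨a, ha⟩ := turns_shift (P := P) (x := x) (K := K) hK
    have hfr : Freq x (1 / 3) := by
      by_contra hc
      exact c2 hc
    exact Freq.shift ha hfr
  refine measure_mono_null hsub ?_
  have hnoatom : NullSingletonClass lebesgue := ⟨leb_atom⟩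
  rw [measure_union_null_iff, measure_union_null_iff]
  exact ⟨⟨(h1.image _).measure_zero _, (h2.image _).measure_zero _⟩, lebesgue_freq⟩

/-! ### The canonical homeomorphism -/

lemma isOpen_cyl (x : ℕ → Bool) (n : ℕ) : IsOpen {y : ℕ → Bool | ∀ i < n, y i = x i} := by
  have h : {y : ℕ → Bool | ∀ i < n, y i = x i} =
      Set.pi (Finset.range n : Set ℕ) (fun i => {x i}) := by
    ext y; simp [Set.mem_pi]
  rw [h]
  exact isOpen_set_pi (Finset.finite_toSet _) (fun i _ => isOpen_discrete _)

lemma exists_cyl {x : ℕ → Bool} {U : Set (ℕ → Bool)} (hU : U ∈ 𝓝 x) :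
    ∃ n, {y : ℕ → Bool | ∀ i < n, y i = x i} ⊆ U := by
  rw [nhds_pi, Filter.mem_pi'] at hU
  obtain ⟨I, t, ht, hsub⟩ := hU
  refine ⟨I.sup id + 1, fun y hy => hsub ?_⟩
  intro i hi
  have : y i = x i := hy i (Nat.lt_succ_of_le (Finset.le_sup (f := id) hi))
  rw [this]
  exact mem_of_mem_nhds (ht i)

lemma branching_congr (P : Set (ℕ → Bool)) {x x' : ℕ → Bool} {n : ℕ} (h : ∀ i < n, x i = x' i) :
    Branching P x n ↔ Branching P x' n := by
  constructor
  · intro hb b
    obtain ⟨y, hy, h1, h2⟩ := hb b
    exact ⟨y, hy, fun i hi => (h1 i hi).trans (h i hi), h2⟩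
  · intro hb b
    obtain ⟨y, hy, h1, h2⟩ := hb b
    exact ⟨y, hy, fun i hi => (h1 i hi).trans (h i hi).symm, h2⟩

/-- first difference is branching -/
lemma exists_diff {P : Set (ℕ → Bool)} {x y : ℕ → Bool} (hx : x ∈ P) (hy : y ∈ P) (hne : x ≠ y) :
    ∃ n, (∀ i < n, x i = y i) ∧ x n ≠ y n ∧ Branching P x n ∧ Branching P y n := by
  classical
  have hex : ∃ n, x n ≠ y n := by
    by_contra hc
    push Not at hc
    exact hne (funext hc)
  have h1 : ∀ i < Nat.find hex, x i = y i := by
    intro i hi
    by_contra hc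
    exact Nat.find_min hex hi hc
  have h2 : x (Nat.find hex) ≠ y (Nat.find hex) := Nat.find_spec hex
  have h3 : Branching P x (Nat.find hex) := by
    intro b
    by_cases hb : x (Nat.find hex) = b
    · exact ⟨x, hx, fun i _ => rfl, hb⟩
    · refine ⟨y, hy, fun i hi => (h1 i hi).symm, ?_⟩
      revert h2 hb
      generalize x (Nat.find hex) = u
      generalize y (Nat.find hex) = v
      cases u <;> cases v <;> cases b <;> simp
  exact ⟨Nat.find hex, h1, h2, h3, (branching_congr P h1).mp h3⟩

lemma infinite_branching {P : Set (ℕ → Bool)} (hP : Perfect P) {x : ℕ → Bool} (hx : x ∈ P) :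
    (Set.ofPred (Branching P x)).Infinite := by
  rw [Set.infinite_iff_exists_gt]
  intro N
  obtain ⟨y, ⟨hyU, hyP⟩, hne⟩ := preperfect_iff_nhds.mp hP.acc x hx
    {y : ℕ → Bool | ∀ i < N + 1, y i = x i} ((isOpen_cyl x (N + 1)).mem_nhds (fun i _ => rfl))
  obtain ⟨n, h1, h2, h3, -⟩ := exists_diff hx hyP hne.symm
  refine ⟨n, h3, ?_⟩
  by_contra hc
  exact h2 (hyU n (by omega)).symm

lemma nth_agree {P : Set (ℕ → Bool)} {x x' : ℕ → Bool}
    (hinf : (Set.ofPred (Branching P x)).Infinite) {k : ℕ}
    (h : ∀ i < Nat.nth (Branching P x) k, x' i = x i) :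
    Nat.nth (Branching P x') k = Nat.nth (Branching P x) k := by
  classical
  set m := Nat.nth (Branching P x) k with hm
  have h1 : Branching P x m := Nat.nth_mem_of_infinite hinf k
  have h2 : Branching P x' m := (branching_congr P h).mpr h1
  have h3 : Nat.count (Branching P x) m = k := Nat.count_nth_of_infinite hinf k
  have h4 : Nat.count (Branching P x') m = Nat.count (Branching P x) m := by
    rw [Nat.count_eq_card_filter_range, Nat.count_eq_card_filter_range]
    congr 1
    apply Finset.filter_congr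
    intro i hi
    rw [Finset.mem_range] at hi
    exact branching_congr P (fun j hj => h j (by omega))
  have h5 := Nat.nth_count h2
  rw [h4, h3] at h5
  exact h5

lemma turns_continuous {P : Set (ℕ → Bool)} (hP : Perfect P) :
    Continuous (fun x : P => turns P x) := by
  rw [continuous_pi_iff]
  intro k
  rw [continuous_iff_continuousAt]
  intro x
  have hinf := infinite_branching hP x.2
  apply ContinuousAt.congr (f := fun _ => turns P x k) continuousAt_const
  have hU : {x' : P | ∀ i < Nat.nth (Branching P x) k + 1, (x' : ℕ → Bool) i = (x : ℕ → Bool) i} ∈ 𝓝 x := by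
    have := (isOpen_cyl x (Nat.nth (Branching P x) k + 1)).preimage (continuous_subtype_val (p := fun z => z ∈ P))
    exact this.mem_nhds (fun i _ => rfl)
  filter_upwards [hU] with x' hx'
  have h1 := nth_agree hinf (x' := x') (k := k) (fun i hi => hx' i (by omega))
  unfold turns
  rw [h1]
  exact (hx' _ (Nat.lt_succ_self _)).symm

lemma turns_injOn (P : Set (ℕ → Bool)) : Set.InjOn (turns P) P := by
  classical
  intro x hx y hy hxy
  by_contra hne
  obtain ⟨n, h1, h2, h3, h4⟩ := exists_diff hx hy hne
  have h5 : Nat.count (Branching P x) n = Nat.count (Branching P y) n := by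
    rw [Nat.count_eq_card_filter_range, Nat.count_eq_card_filter_range]
    congr 1
    apply Finset.filter_congr
    intro i hi
    rw [Finset.mem_range] at hi
    exact branching_congr P (fun j hj => h1 j (by omega))
  have h6 := congrFun hxy (Nat.count (Branching P x) n)
  unfold turns at h6
  rw [Nat.nth_count h3, h5, Nat.nth_count h4] at h6
  exact h2 h6

lemma turns_approx {P : Set (ℕ → Bool)} (hP : Perfect P) (hne : P.Nonempty) (y : ℕ → Bool)
    (K : ℕ) :
    ∃ x ∈ P, ∀ k < K, turns P x k = y k := by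
  induction K with
  | zero =>
    obtain ⟨x, hx⟩ := hne
    exact ⟨x, hx, by simp⟩
  | succ K ih =>
    obtain ⟨x, hx, h⟩ := ih
    have hinf := infinite_branching hP hx
    obtain ⟨x', hx', h1, h2⟩ := Nat.nth_mem_of_infinite hinf K (y K)
    refine ⟨x', hx', fun k hk => ?_⟩
    rcases Nat.lt_succ_iff_lt_or_eq.mp hk with hk' | rfl
    · have h3 : Nat.nth (Branching P x) k < Nat.nth (Branching P x) K := Nat.nth_strictMono hinf hk'
      have h4 := nth_agree hinf (x' := x') (k := k) (fun i hi => h1 i (by omega))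
      rw [← h k hk']
      unfold turns
      rw [h4]
      exact h1 _ h3
    · have h4 := nth_agree hinf (x' := x') (k := k) h1
      unfold turns
      rw [h4]
      exact h2

lemma turns_surjOn {P : Set (ℕ → Bool)} (hP : Perfect P) (hne : P.Nonempty) (y : ℕ → Bool) :
    ∃ x : P, turns P x = y := by
  have hcomp : CompactSpace P := isCompact_iff_compactSpace.mp hP.closed.isCompact
  have hcl : IsClosed (Set.range (fun x : P => turns P x)) :=
    (isCompact_range (turns_continuous hP)).isClosed
  have hmem : y ∈ closure (Set.range (fun x : P => turns P x)) := by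
    rw [mem_closure_iff_nhds]
    intro U hU
    obtain ⟨n, hn⟩ := exists_cyl hU
    obtain ⟨x, hx, h⟩ := turns_approx hP hne y n
    exact ⟨turns P x, hn h, ⟨x, hx⟩, rfl⟩
  rw [hcl.closure_eq] at hmem
  exact hmem

/-- every nonempty perfect set has a canonical homeomorphism -/
lemma exists_canonical {P : Set (ℕ → Bool)} (hP : Perfect P) (hne : P.Nonempty) :
    ∃ h : (ℕ → Bool) ≃ₜ P, IsCanonical P h := by
  have hcomp : CompactSpace P := isCompact_iff_compactSpace.mp hP.closed.isCompact
  have hinj : Function.Injective (fun x : P => turns P x) := fun x y hxy =>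
    Subtype.ext (turns_injOn P x.2 y.2 hxy)
  have hsurj : Function.Surjective (fun x : P => turns P x) := turns_surjOn hP hne
  let e : P ≃ (ℕ → Bool) := Equiv.ofBijective _ ⟨hinj, hsurj⟩
  have he : Continuous e := turns_continuous hP
  refine ⟨(he.homeoOfEquivCompactToT2).symm, fun y k => ?_⟩
  have h1 : turns P (((he.homeoOfEquivCompactToT2).symm y : P) : ℕ → Bool) = y :=
    (he.homeoOfEquivCompactToT2).apply_symm_apply y
  exact congrFun h1 k

/-! ### A Sierpinski type set -/

open Cardinal in
/-- under CH there is a non-null set meeting every null set in a countable set -/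
lemma exists_sierpinski (CH : (𝔠 : Cardinal.{0}) = ℵ₁) {X : Type} [MeasurableSpace X]
    [MeasurableSpace.CountablyGenerated X] (μ : Measure X) (hμ : μ Set.univ ≠ 0) :
    ∃ A : Set X, μ A ≠ 0 ∧ ∀ N, μ N = 0 → (A ∩ N).Countable := by
  classical
  let ι : Type := (Cardinal.aleph 1).ord.ToType
  have hι : #ι = ℵ₁ := mk_ord_toType _
  have hIio : ∀ i : ι, (Set.Iio i).Countable := by
    intro i
    have h1 : #(Set.Iio i) < #ι := mk_Iio_lt i (by simp [ι])
    rw [hι] at h1
    exact le_aleph0_iff_set_countable.mp (lt_aleph_one_iff.mp h1)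
  have hIic : ∀ i : ι, (Set.Iic i).Countable := by
    intro i
    have : Set.Iic i = insert i (Set.Iio i) := by
      ext j; simp [le_iff_eq_or_lt]
    rw [this]
    exact (hIio i).insert i
  let 𝒩 : Type := {N : Set X // MeasurableSet N ∧ μ N = 0}
  have h𝒩 : #𝒩 ≤ #ι := by
    rw [hι, ← CH]
    have h1 : #{t : Set X | MeasurableSet t} ≤ 𝔠 := by
      have h2 := MeasurableSpace.cardinal_measurableSet_le_continuum
        (s := MeasurableSpace.countableGeneratingSet X)
        ((MeasurableSpace.countable_countableGeneratingSet (α := X)).le_aleph0.trans aleph0_le_continuum)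
      rw [MeasurableSpace.generateFrom_countableGeneratingSet] at h2
      exact h2
    refine le_trans ?_ h1
    exact Cardinal.mk_le_of_injective (f := fun N : 𝒩 => (⟨N.1, N.2.1⟩ : {t : Set X | MeasurableSet t}))
      (fun a b h => by
        have := congrArg Subtype.val h
        exact Subtype.ext this)
  have hne : Nonempty 𝒩 := ⟨⟨∅, MeasurableSet.empty, measure_empty⟩⟩
  obtain ⟨g⟩ := Cardinal.le_def _ _ |>.mp h𝒩
  let f : ι → 𝒩 := Function.invFun g
  have hf : Function.Surjective f := Function.invFun_surjective g.injective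
  have hex : ∀ i : ι, ∃ x : X, ∀ j ≤ i, x ∉ (f j).1 := by
    intro i
    by_contra hcon
    push Not at hcon
    apply hμ
    have hsub : (Set.univ : Set X) ⊆ ⋃ j ∈ Set.Iic i, (f j).1 := by
      intro x _
      obtain ⟨j, hj, hx⟩ := hcon x
      simp only [Set.mem_iUnion]
      exact ⟨j, hj, hx⟩
    exact measure_mono_null hsub ((measure_biUnion_null_iff (hIic i)).mpr (fun j _ => (f j).2.2))
  choose a ha using hex
  refine ⟨Set.range a, ?_, ?_⟩
  · intro h0
    obtain ⟨j, hj⟩ := hf ⟨toMeasurable μ (Set.range a), measurableSet_toMeasurable _ _, by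
      rw [measure_toMeasurable, h0]⟩
    apply ha j j le_rfl
    rw [hj]
    exact subset_toMeasurable _ _ ⟨j, rfl⟩
  · intro N hN
    obtain ⟨j, hj⟩ := hf ⟨toMeasurable μ N, measurableSet_toMeasurable _ _, by
      rw [measure_toMeasurable, hN]⟩
    have hsub : Set.range a ∩ N ⊆ a '' (Set.Iio j) := by
      rintro _ ⟨⟨i, rfl⟩, hi⟩
      refine ⟨i, ?_, rfl⟩
      by_contra hc
      have hji : j ≤ i := not_lt.mp hc
      apply ha i j hji
      rw [hj]
      exact subset_toMeasurable _ _ hi
    exact ((hIio j).image a).mono hsub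

/-! ### Sanity checks of the definitions -/

/-- The fair coin product measure gives a cylinder of length `n` the measure `2⁻ⁿ`. -/
lemma lebesgue_cyl (x : ℕ → Bool) (n : ℕ) :
    lebesgue {y | ∀ i < n, y i = x i} = (1 / 2) ^ n := by
  have h := bern_cyl (p := 1 / 2) half_le x n
  have h2 : ∀ b, coin (1 / 2) {b} = 1 / 2 := by
    intro b
    cases b
    · rw [coin_false]; simp
    · rw [coin_true]
  simp only [h2, Finset.prod_const, Finset.card_range] at h
  exact h

/-- The canonical homeomorphism is unique. -/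
lemma canonical_unique {P : Set (ℕ → Bool)} {h h' : (ℕ → Bool) ≃ₜ P}
    (hc : IsCanonical P h) (hc' : IsCanonical P h') : ∀ y, h y = h' y := by
  intro y
  have h1 : turns P (h y) = y := funext (hc y)
  have h2 : turns P (h' y) = y := funext (hc' y)
  exact Subtype.ext (turns_injOn P (h y).2 (h' y).2 (h1.trans h2.symm))

/-- Universally null sets are perfectly null. -/
lemma UniversallyNull.perfectlyNull {A : Set (ℕ → Bool)} (hA : UniversallyNull A) :
    PerfectlyNull A := by
  intro P hP hne
  obtain ⟨h, hc⟩ := exists_canonical hP hne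
  refine ⟨h, hc, ?_⟩
  have hm : Measurable (fun y => (h y : ℕ → Bool)) :=
    (continuous_subtype_val.comp h.continuous).measurable
  have hprob : IsProbabilityMeasure lebesgue := bern_prob (p := 1 / 2) half_le
  have hfin : IsFiniteMeasure (lebesgue.map (fun y => (h y : ℕ → Bool))) := inferInstance
  have h0 := hA (lebesgue.map (fun y => (h y : ℕ → Bool))) hfin (by
    intro x
    rw [Measure.map_apply hm (MeasurableSet.singleton x)]
    by_cases hx : ∃ y, (h y : ℕ → Bool) = x
    · obtain ⟨y, rfl⟩ := hx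
      refine measure_mono_null (t := {y}) ?_ (leb_atom y)
      intro z hz
      have hz' : (h z : ℕ → Bool) = (h y : ℕ → Bool) := hz
      exact h.injective (Subtype.ext hz')
    · refine measure_mono_null (t := ∅) ?_ measure_empty
      intro z hz
      exact hx ⟨z, hz⟩)
  exact Measure.preimage_null_of_map_null hm.aemeasurable h0

/-! ### The result -/

/-- Under the continuum hypothesis there is a perfectly null subset of the Cantor space that is
not universally null. -/
theorem separation (CH : Cardinal.continuum.{0} = Cardinal.aleph 1) :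
    ∃ A : Set (ℕ → Bool), PerfectlyNull A ∧ ¬ UniversallyNull A := by
  have hprob := bern_prob third_le
  obtain ⟨A, hA0, hA⟩ := exists_sierpinski CH (bern (1 / 3)) (by rw [measure_univ]; exact one_ne_zero)
  refine ⟨A, ?_, ?_⟩
  · intro P hP hne
    obtain ⟨h, hc⟩ := exists_canonical hP hne
    refine ⟨h, hc, measure_mono_null ?_ (turns_null hA P)⟩
    intro y hy
    exact ⟨h y, ⟨hy, (h y).2⟩, funext (hc y)⟩
  · intro hU
    exact hA0 (hU (bern (1 / 3)) inferInstance third_atom)

/-- No hypothesis is assumed. (1) There is a notion of forcing `P` all of whose conditions force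
that `ω₁` is preserved and that the continuum hypothesis holds. (2) The continuum hypothesis
implies that some perfectly null subset of the Cantor space is not universally null. -/
theorem result :
    (∃ (P : Type) (_ : Preorder P), Nonempty P ∧ ∀ p : P,
      p ∈ Pool.Agent.Helper292.ForceCH.OmegaOnePreserved P ∧
      p ∈ Pool.Agent.Helper292.ForceCH.CHHolds P) ∧
    (Cardinal.continuum.{0} = Cardinal.aleph 1 →
      ∃ A : Set (ℕ → Bool), PerfectlyNull A ∧ ¬ UniversallyNull A) := by
  refine ⟨?_, separation⟩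
  obtain ⟨P, hP, hne, h⟩ := Pool.Agent.Helper292.ForceCH.exists_forcing
  exact ⟨P, hP, hne, fun p => ⟨(h p).1, (h p).2.2⟩⟩

end Pool.Agent.Results.MP_dd3545_lc.ForcedSeparation
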